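import Pool.Agent.T6.H29.MO.Act

/-!
Growth of finitely generated subgroups, the full group, and the subgroup of intermediate growth.
-/

set_option autoImplicit false

namespace Pool.Agent.T6.H29.MO

open Pool.Agent.Results.MP_03d093_al.SphereBall (Lt)
open Pool.Agent.H776R2.Grig Pool.Agent.H776R2.Om
open Filter

section

variable {G : Type} [Group G]

theorem wball_mono (S : Set G) {m n : ℕ} (h : m ≤ n) : wball S m ⊆ wball S n := by
  rintro g ⟨l, h1, h2, h3⟩
  exact ⟨l, h1.trans h, h2, h3⟩

theorem wball_finite {S : Set G} (hS : S.Finite) (r : ℕ) : (wball S r).Finite := by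
  have h1 : (S ∪ S⁻¹).Finite := hS.union hS.inv
  have h2 : {l : List G | l.length ≤ r ∧ ∀ s ∈ l, s ∈ S ∪ S⁻¹}.Finite := by
    have : Finite ↥(S ∪ S⁻¹) := h1
    have h3 : {l : List ↥(S ∪ S⁻¹) | l.length ≤ r}.Finite := List.finite_length_le _ r
    refine (h3.image (List.map Subtype.val)).subset ?_
    rintro l ⟨hl1, hl2⟩
    refine ⟨l.attach.map fun s => ⟨s.1, hl2 s.1 s.2⟩, ?_, ?_⟩
    · simpa using hl1
    · rw [List.map_map]
      have : (Subtype.val ∘ fun s : {x // x ∈ l} => (⟨s.1, hl2 s.1 s.2⟩ : ↥(S ∪ S⁻¹))) =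
          Subtype.val := rfl
      rw [this, List.attach_map_subtype_val]
  refine (h2.image List.prod).subset ?_
  rintro g ⟨l, hl1, hl2, rfl⟩
  exact ⟨l, ⟨hl1, fun s hs => by
    rcases hl2 s hs with h | h
    · exact Or.inl h
    · exact Or.inr (by simpa using h)⟩, rfl⟩

theorem wball_inv {S : Set G} {r : ℕ} {g : G} (h : g ∈ wball S r) : g⁻¹ ∈ wball S r := by
  obtain ⟨l, h1, h2, rfl⟩ := h
  refine ⟨(l.map fun x => x⁻¹).reverse, by simpa using h1, ?_, ?_⟩
  · intro s hs
    rw [List.mem_reverse, List.mem_map] at hs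
    obtain ⟨t, ht, rfl⟩ := hs
    rcases h2 t ht with h | h
    · exact Or.inr (by simpa using h)
    · exact Or.inl h
  · exact (List.prod_inv_reverse l).symm

theorem wball_mul {S : Set G} {r t : ℕ} {g h : G} (hg : g ∈ wball S r) (hh : h ∈ wball S t) :
    g * h ∈ wball S (r + t) := by
  obtain ⟨l, h1, h2, rfl⟩ := hg
  obtain ⟨l', h1', h2', rfl⟩ := hh
  refine ⟨l ++ l', by simp; omega, ?_, by simp⟩
  intro s hs
  rcases List.mem_append.1 hs with h | h
  · exact h2 s h
  · exact h2' s h

theorem exists_wball {S : Set G} {g : G} (hg : g ∈ Subgroup.closure S) : ∃ r, g ∈ wball S r := by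
  induction hg using Subgroup.closure_induction with
  | mem x hx => exact ⟨1, [x], by simp, by simpa using Or.inl hx, by simp⟩
  | one => exact ⟨0, [], by simp, by simp, rfl⟩
  | mul x y _ _ hx hy =>
    obtain ⟨r, hr⟩ := hx
    obtain ⟨t, ht⟩ := hy
    exact ⟨r + t, wball_mul hr ht⟩
  | inv x _ hx =>
    obtain ⟨r, hr⟩ := hx
    exact ⟨r, wball_inv hr⟩

theorem wball_lip {S S' : Set G} (hS : S.Finite) (h : Subgroup.closure S ≤ Subgroup.closure S') :
    ∃ C : ℕ, 1 ≤ C ∧ ∀ r, wball S r ⊆ wball S' (C * r) := by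
  have h1 : ∀ s ∈ S, ∃ r, s ∈ wball S' r := fun s hs => exists_wball (h (Subgroup.subset_closure hs))
  obtain ⟨C, hC⟩ : ∃ C : ℕ, ∀ s ∈ S, s ∈ wball S' C := by
    induction S, hS using Set.Finite.induction_on with
    | empty => exact ⟨0, by simp⟩
    | @insert a S _ _ ih =>
      obtain ⟨C, hC⟩ := ih (le_trans (Subgroup.closure_mono (Set.subset_insert _ _)) h)
        (fun s hs => h1 s (Set.mem_insert_of_mem _ hs))
      obtain ⟨r, hr⟩ := h1 a (Set.mem_insert _ _)
      refine ⟨max C r, ?_⟩
      intro s hs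
      rcases Set.mem_insert_iff.1 hs with rfl | hs
      · exact wball_mono S' (le_max_right _ _) hr
      · exact wball_mono S' (le_max_left _ _) (hC s hs)
  refine ⟨C + 1, by omega, ?_⟩
  rintro r g ⟨l, hl1, hl2, rfl⟩
  have key : ∀ l : List G, (∀ s ∈ l, s ∈ S ∨ s⁻¹ ∈ S) → l.prod ∈ wball S' ((C + 1) * l.length) := by
    intro l
    induction l with
    | nil => intro _; exact ⟨[], by simp, by simp, rfl⟩
    | cons s l ih =>
      intro hl
      have h2 := ih (fun t ht => hl t (List.mem_cons_of_mem _ ht))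
      have h3 : s ∈ wball S' (C + 1) := by
        apply wball_mono S' (Nat.le_succ C)
        rcases hl s (by simp) with h | h
        · exact hC s h
        · have := wball_inv (hC _ h)
          simpa using this
      have h4 := wball_mul h3 h2
      rw [List.prod_cons, List.length_cons]
      have e : (C + 1) * (l.length + 1) = (C + 1) + (C + 1) * l.length := by ring
      rw [e]
      exact h4
  exact wball_mono S' (Nat.mul_le_mul_left _ hl1) (key l hl2)

theorem growth_lip {S S' : Set G} (hS : S.Finite) (hS' : S'.Finite)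
    (h : Subgroup.closure S ≤ Subgroup.closure S') :
    ∃ C : ℕ, 1 ≤ C ∧ ∀ r, growth S r ≤ growth S' (C * r) := by
  obtain ⟨C, hC1, hC⟩ := wball_lip hS h
  exact ⟨C, hC1, fun r => Set.ncard_le_ncard (hC r) (wball_finite hS' _)⟩

/-- it is enough to look at one generating set -/
theorem intermediate_of {S : Set G} (hS : S.Finite)
    (h1 : ∀ (d : ℕ) (C : ℝ), ∀ᶠ r : ℕ in atTop, C * (r : ℝ) ^ d < growth S r)
    (h2 : ∀ c : ℝ, 0 < c → ∀ᶠ r : ℕ in atTop, (growth S r : ℝ) < Real.exp (c * r)) :
    IntermediateGrowth (Subgroup.closure S) := by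
  refine ⟨⟨hS.toFinset, by simp⟩, ?_⟩
  intro S' hS' hcl
  constructor
  · intro d C
    obtain ⟨K, hK1, hK⟩ := growth_lip hS hS' hcl.ge
    have hK0 : (0 : ℝ) < K := by exact_mod_cast hK1
    have h3 := h1 d (|C| * (2 * K) ^ d)
    have h4 : Tendsto (fun r : ℕ => r / K) atTop atTop := Nat.tendsto_div_const_atTop (by omega)
    filter_upwards [h4.eventually h3, eventually_ge_atTop K] with r hr hrK
    have h5 : growth S (r / K) ≤ growth S' r := by
      refine (hK _).trans ?_
      apply Set.ncard_le_ncard (wball_mono S' _) (wball_finite hS' _)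
      exact Nat.mul_div_le r K
    have h6 : (r : ℝ) ≤ 2 * K * ((r / K : ℕ) : ℝ) := by
      have h7 : r ≤ 2 * (K * (r / K)) := by
        have h8 := Nat.div_add_mod r K
        have h9 := Nat.mod_lt r (show 0 < K by omega)
        have h10 : 1 ≤ r / K := (Nat.one_le_div_iff (by omega)).2 hrK
        have h11 : K * 1 ≤ K * (r / K) := Nat.mul_le_mul_left _ h10
        omega
      have : (r : ℝ) ≤ ((2 * (K * (r / K)) : ℕ) : ℝ) := by exact_mod_cast h7
      push_cast at this
      linarith
    calc C * (r : ℝ) ^ d ≤ |C| * (r : ℝ) ^ d := by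
          apply mul_le_mul_of_nonneg_right (le_abs_self C) (by positivity)
      _ ≤ |C| * (2 * K * ((r / K : ℕ) : ℝ)) ^ d := by gcongr
      _ = |C| * (2 * K) ^ d * ((r / K : ℕ) : ℝ) ^ d := by rw [mul_pow]; ring
      _ < growth S (r / K) := hr
      _ ≤ growth S' r := by exact_mod_cast h5
  · intro c hc
    obtain ⟨K, hK1, hK⟩ := growth_lip hS' hS hcl.le
    have hK0 : (0 : ℝ) < K := by exact_mod_cast hK1
    have h3 := h2 (c / K) (by positivity)
    have h4 : Tendsto (fun r : ℕ => K * r) atTop atTop :=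
      tendsto_id.const_mul_atTop' (by omega)
    filter_upwards [h4.eventually h3] with r hr
    have h5 : (growth S' r : ℝ) ≤ growth S (K * r) := by exact_mod_cast hK r
    refine h5.trans_lt (hr.trans_le ?_)
    apply Real.exp_le_exp.2
    apply le_of_eq
    push_cast
    field_simp

end

/-! ### the subgroup -/

section

variable {Y : Type} [TopologicalSpace Y] (S : Y ≃ₜ Y) (π : Y → MS) (hπ : Continuous π)
  (hS : ∀ y, π (S y) = T (π y))

/-- the generators -/
def gens : Set (Y ≃ₜ Y) := Set.range (gX S π hπ hS)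

theorem gens_finite : (gens S π hπ hS).Finite := Set.finite_range _

theorem gX_sq (s : Lt) : gX S π hπ hS s * gX S π hπ hS s = 1 := by
  apply Homeomorph.ext
  intro y
  exact act_invol S π hS s y

theorem gX_inv (s : Lt) : (gX S π hπ hS s)⁻¹ = gX S π hπ hS s := by
  rw [inv_eq_iff_mul_eq_one]
  exact gX_sq S π hπ hS s

theorem evX_append (v w : List Lt) :
    evX S π hπ hS (v ++ w) = evX S π hπ hS v * evX S π hπ hS w := by
  simp [evX]

theorem evX_reverse (w : List Lt) : evX S π hπ hS w.reverse = (evX S π hπ hS w)⁻¹ := by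
  induction w with
  | nil => simp [evX]
  | cons s w ih =>
    have e1 : evX S π hπ hS (s :: w) = gX S π hπ hS s * evX S π hπ hS w := by simp [evX]
    have e2 : evX S π hπ hS [s] = gX S π hπ hS s := by simp [evX]
    rw [List.reverse_cons, evX_append, ih, e1, e2, mul_inv_rev, gX_inv]

theorem evX_eq (hsurj : Function.Surjective π) (v w : List Lt) :
    evX S π hπ hS v = evX S π hπ hS w ↔ evo alt v = evo alt w := by
  have h := evX_eq_one S π hπ hS hsurj (v.reverse ++ w)
  rw [evX_append, evX_reverse, evo_append, evo_reverse] at h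
  rw [inv_mul_eq_one, inv_mul_eq_one] at h
  exact h

theorem mem_wball_gens (r : ℕ) (g : Y ≃ₜ Y) :
    g ∈ wball (gens S π hπ hS) r ↔ ∃ w : List Lt, w.length ≤ r ∧ evX S π hπ hS w = g := by
  constructor
  · rintro ⟨l, hl1, hl2, rfl⟩
    have key : ∀ l : List (Y ≃ₜ Y), (∀ s ∈ l, s ∈ gens S π hπ hS ∨ s⁻¹ ∈ gens S π hπ hS) →
        ∃ w : List Lt, w.length = l.length ∧ evX S π hπ hS w = l.prod := by
      intro l
      induction l with
      | nil => intro _; exact ⟨[], rfl, rfl⟩
      | cons g l ih =>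
        intro hl
        obtain ⟨w, hw1, hw2⟩ := ih (fun t ht => hl t (List.mem_cons_of_mem _ ht))
        obtain ⟨s, hs⟩ : ∃ s, gX S π hπ hS s = g := by
          rcases hl g (by simp) with ⟨s, hs⟩ | ⟨s, hs⟩
          · exact ⟨s, hs⟩
          · refine ⟨s, ?_⟩
            rw [← gX_inv, hs, inv_inv]
        refine ⟨s :: w, by simp [hw1], ?_⟩
        have e1 : evX S π hπ hS (s :: w) = gX S π hπ hS s * evX S π hπ hS w := by simp [evX]
        rw [e1, hs, hw2, List.prod_cons]
    obtain ⟨w, hw1, hw2⟩ := key l hl2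
    exact ⟨w, by omega, hw2⟩
  · rintro ⟨w, hw, rfl⟩
    refine ⟨w.map (gX S π hπ hS), by simpa using hw, ?_, rfl⟩
    intro s hs
    rw [List.mem_map] at hs
    obtain ⟨t, -, rfl⟩ := hs
    exact Or.inl ⟨t, rfl⟩

theorem growth_gens (hsurj : Function.Surjective π) (r : ℕ) :
    growth (gens S π hπ hS) r = ballO alt r := by
  unfold growth
  have hfin := wball_finite (gens_finite S π hπ hS) r
  have hfin2 : Finite {g : Gom alt // lenO alt g ≤ r} := (ballO_finite alt r).to_subtype
  have hfin3 : Finite (wball (gens S π hπ hS) r) := hfin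
  rw [← Nat.card_coe_set_eq]
  apply le_antisymm
  · choose w hw1 hw2 using fun g : wball (gens S π hπ hS) r => (mem_wball_gens S π hπ hS r g.1).1 g.2
    let Φ : wball (gens S π hπ hS) r → {g : Gom alt // lenO alt g ≤ r} :=
      fun g => ⟨evG alt (w g), (lenO_le alt (w g)).trans (hw1 g)⟩
    apply Nat.card_le_card_of_injective Φ
    intro g h hgh
    have h1 : evo alt (w g) = evo alt (w h) := congrArg Subtype.val (congrArg Subtype.val hgh)
    rw [← evX_eq S π hπ hS hsurj, hw2, hw2] at h1
    exact Subtype.ext h1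
  · choose w hw1 hw2 using fun g : {g : Gom alt // lenO alt g ≤ r} => exists_geodo alt g.1
    let Φ : {g : Gom alt // lenO alt g ≤ r} → wball (gens S π hπ hS) r :=
      fun g => ⟨evX S π hπ hS (w g), (mem_wball_gens S π hπ hS r _).2
        ⟨w g, (hw1 g).trans_le g.2, rfl⟩⟩
    apply Nat.card_le_card_of_injective Φ
    intro g h hgh
    have h1 : evX S π hπ hS (w g) = evX S π hπ hS (w h) := congrArg Subtype.val hgh
    rw [evX_eq S π hπ hS hsurj] at h1
    apply Subtype.ext
    rw [← hw2 g, ← hw2 h]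
    exact Subtype.ext h1

theorem main (hsurj : Function.Surjective π) :
    Subgroup.closure (gens S π hπ hS) ≤ fullGroup S ∧
      IntermediateGrowth (Subgroup.closure (gens S π hπ hS)) := by
  constructor
  · rw [Subgroup.closure_le]
    rintro g ⟨s, rfl⟩
    exact ⟨fun y => dis s (π y), (dis_cont s).comp hπ, fun y => rfl⟩
  · apply intermediate_of (gens_finite S π hπ hS)
    · intro d C
      simp only [growth_gens S π hπ hS hsurj]
      exact lower_alt d C
    · intro c hc
      simp only [growth_gens S π hπ hS hsurj]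
      exact upper_exp c hc

end

end Pool.Agent.T6.H29.MO
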