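import Pool.Agent.T6.H29.MO.Defs

/-!
The Thue-Morse sequence, the Morse subshift and their windows.
-/

set_option autoImplicit false

namespace Pool.Agent.T6.H29.MO

/-- the Thue-Morse sequence -/
def tm : ℕ → Bool
  | 0 => false
  | n + 1 => if (n + 1) % 2 = 0 then tm ((n + 1) / 2) else !(tm ((n + 1) / 2))
  decreasing_by all_goals omega

theorem tm_zero : tm 0 = false := by rw [tm]

theorem tm_rec (q : ℕ) : tm q = if q % 2 = 0 then tm (q / 2) else !(tm (q / 2)) := by
  cases q with
  | zero => simp [tm_zero]
  | succ n => rw [tm]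

theorem tm_two (q : ℕ) : tm (2 * q) = tm q := by
  rw [tm_rec (2 * q), if_pos (by omega)]
  congr 1
  omega

theorem tm_two_one (q : ℕ) : tm (2 * q + 1) = !(tm q) := by
  rw [tm_rec (2 * q + 1), if_neg (by omega)]
  congr 2
  omega

theorem tm_pow (k m j : ℕ) (hj : j < 2 ^ k) : tm (2 ^ k * m + j) = xor (tm m) (tm j) := by
  induction k generalizing j with
  | zero =>
    have : j = 0 := by simpa using hj
    subst this
    simp [tm_zero]
  | succ k ih =>
    have hj2 : j / 2 < 2 ^ k := by
      rw [pow_succ] at hj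
      omega
    have e : 2 ^ (k + 1) * m + j = 2 * (2 ^ k * m + j / 2) + j % 2 := by
      rw [pow_succ]
      have := Nat.div_add_mod j 2
      ring_nf
      ring_nf at this
      omega
    have e2 : j = 2 * (j / 2) + j % 2 := by omega
    rcases Nat.mod_two_eq_zero_or_one j with h | h
    · rw [e, h, add_zero, tm_two, ih _ hj2]
      have e3 : tm j = tm (j / 2) := by
        rw [tm_rec j, if_pos h]
      rw [e3]
    · rw [e, h, tm_two_one, ih _ hj2]
      have e3 : tm j = !(tm (j / 2)) := by
        rw [tm_rec j, if_neg (by omega)]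
      rw [e3]
      cases tm m <;> cases tm (j / 2) <;> rfl

theorem tm_four (a r : ℕ) (hr : r < 4) : tm (4 * a + r) = xor (tm a) (tm r) :=
  tm_pow 2 a r hr

theorem tm_pal (k : ℕ) : ∀ j, j < 4 ^ k → tm (4 ^ k - 1 - j) = tm j := by
  induction k with
  | zero =>
    intro j hj
    have : j = 0 := by simpa using hj
    subst this
    rfl
  | succ k ih =>
    intro j hj
    rw [pow_succ] at hj
    have h4 : 0 < 4 ^ k := by positivity
    have e : 4 ^ (k + 1) - 1 - j = 4 * (4 ^ k - 1 - j / 4) + (3 - j % 4) := by
      rw [pow_succ]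
      omega
    have e2 : tm j = xor (tm (j / 4)) (tm (j % 4)) := by
      rw [← tm_four _ _ (Nat.mod_lt _ (by norm_num))]
      congr 1
      omega
    rw [e, tm_four _ _ (by omega), ih _ (by omega), e2]
    have h3 : tm (3 - j % 4) = tm (j % 4) := by
      have t1 : tm 1 = true := by
        have := tm_two_one 0
        simpa [tm_zero] using this
      have t2 : tm 2 = true := by
        have := tm_two 1
        rw [t1] at this
        exact this
      have t3 : tm 3 = false := by
        have := tm_two_one 1
        rw [t1] at this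
        exact this
      have hlt : j % 4 < 4 := Nat.mod_lt _ (by norm_num)
      interval_cases (j % 4)
      · rw [tm_zero]; exact t3
      · show tm 2 = tm 1
        rw [t1, t2]
      · show tm 1 = tm 2
        rw [t1, t2]
      · show tm 0 = tm 3
        rw [tm_zero, t3]
    rw [h3]

/-! ### the local rule -/

theorem tm_edge (j : ℕ) (hj : 1 ≤ j) :
    (tm (2 * j - 1) = tm (2 * j)) ↔ Even (padicValNat 2 j) := by
  induction j using Nat.strong_induction_on with
  | _ j ih =>
    have e1 : tm (2 * j - 1) = !(tm (j - 1)) := by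
      rw [← tm_two_one]
      congr 1
      omega
    rw [e1, tm_two]
    rcases Nat.even_or_odd j with ⟨i, hi⟩ | ⟨i, hi⟩
    · have hi1 : 1 ≤ i := by omega
      have hval : padicValNat 2 j = padicValNat 2 i + 1 := by
        rw [show j = 2 * i by omega, padicValNat.mul (by norm_num) (by omega)]
        simp [add_comm]
      rw [hval, Nat.even_add_one, ← ih i (by omega) hi1]
      have h1 : j - 1 = 2 * i - 1 := by omega
      have h2 : j = 2 * i := by omega
      rw [h1, h2]
      cases tm (2 * i - 1) <;> cases tm (2 * i) <;> simp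
    · have hval : padicValNat 2 j = 0 := by
        apply padicValNat.eq_zero_of_not_dvd
        omega
      rw [hval]
      have h1 : j - 1 = 2 * i := by omega
      rw [h1, hi, tm_two, tm_two_one]
      simp

theorem tm_ne (i : ℕ) : tm (2 * i) ≠ tm (2 * i + 1) := by
  rw [tm_two, tm_two_one]
  cases tm i <;> simp

theorem tm_parity (q : ℕ) (hq : 1 ≤ q) :
    (q % 2 = 0) ↔ (tm (q - 1) = tm q ∨ tm (q + 1) = tm (q + 2)) := by
  rcases Nat.mod_two_eq_zero_or_one q with h | h
  · obtain ⟨j, rfl⟩ : ∃ j, q = 2 * j := ⟨q / 2, by omega⟩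
    simp only [h, true_iff]
    rcases Nat.even_or_odd j with ⟨i, hi⟩ | ⟨i, hi⟩
    · right
      have h2 := (tm_edge (j + 1) (by omega)).2 (by
        have : padicValNat 2 (j + 1) = 0 := by
          apply padicValNat.eq_zero_of_not_dvd
          omega
        rw [this]
        exact Even.zero)
      have e1 : 2 * (j + 1) - 1 = 2 * j + 1 := by omega
      have e2 : 2 * (j + 1) = 2 * j + 2 := by omega
      rwa [e1, e2] at h2
    · left
      refine (tm_edge j (by omega)).2 ?_
      have : padicValNat 2 j = 0 := by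
        apply padicValNat.eq_zero_of_not_dvd
        omega
      rw [this]
      exact Even.zero
  · obtain ⟨i, rfl⟩ : ∃ i, q = 2 * i + 1 := ⟨q / 2, by omega⟩
    have h1 := tm_ne i
    have h2 := tm_ne (i + 1)
    have e1 : 2 * i + 1 - 1 = 2 * i := by omega
    have e2 : 2 * i + 1 + 1 = 2 * (i + 1) := by omega
    have e3 : 2 * i + 1 + 2 = 2 * (i + 1) + 1 := by omega
    rw [e1, e2, e3]
    constructor
    · intro h'
      omega
    · rintro (h' | h')
      · exact absurd h' h1
      · exact absurd h' h2

/-- the Thue-Morse sequence is not eventually periodic -/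
theorem tm_aper (p : ℕ) : 1 ≤ p → ∀ N, ¬ ∀ n, N ≤ n → tm (n + p) = tm n := by
  induction p using Nat.strong_induction_on with
  | _ p ih =>
    intro hp N h
    rcases Nat.even_or_odd p with ⟨r, hr⟩ | ⟨r, hr⟩
    · apply ih r (by omega) (by omega) N
      intro n hn
      have := h (2 * n) (by omega)
      rw [show 2 * n + p = 2 * (n + r) by omega, tm_two, tm_two] at this
      exact this
    · -- parity
      have h1 := tm_parity (2 * N + 2) (by omega)
      have h2 := tm_parity (2 * N + 2 + p) (by omega)
      have e1 : tm (2 * N + 2 + p - 1) = tm (2 * N + 2 - 1) := by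
        rw [← h (2 * N + 2 - 1) (by omega)]
        congr 1
        omega
      have e2 : tm (2 * N + 2 + p) = tm (2 * N + 2) := h _ (by omega)
      have e3 : tm (2 * N + 2 + p + 1) = tm (2 * N + 2 + 1) := by
        rw [← h (2 * N + 2 + 1) (by omega)]
        congr 1
        omega
      have e4 : tm (2 * N + 2 + p + 2) = tm (2 * N + 2 + 2) := by
        rw [← h (2 * N + 2 + 2) (by omega)]
        congr 1
        omega
      rw [e1, e2, e3, e4, ← h1] at h2
      omega

/-! ### windows -/

theorem sbt_map (c N : ℕ) : sbt ((List.range N).map fun j => tm (c + j)) =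
    (List.range (2 * N)).map fun j => tm (2 * c + j) := by
  induction N with
  | zero => rfl
  | succ N ih =>
    rw [List.range_succ, List.map_append, sbt, List.flatMap_append]
    unfold sbt at ih
    rw [ih, show 2 * (N + 1) = 2 * N + 1 + 1 by ring, List.range_succ, List.range_succ,
      List.map_append, List.map_append]
    have h1 : tm (2 * c + 2 * N) = tm (c + N) := by
      rw [← tm_two (c + N)]
      congr 1
      ring
    have h2 : tm (2 * c + (2 * N + 1)) = !(tm (c + N)) := by
      rw [← tm_two_one (c + N)]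
      congr 1
      ring
    simp only [List.map_cons, List.map_nil, List.flatMap_cons, List.flatMap_nil, List.append_nil,
      h1, h2, List.append_assoc]
    congr 1
    cases tm (c + N) <;> rfl

theorem sbt_iter (n m : ℕ) : sbt^[n] [tm m] = (List.range (2 ^ n)).map fun j => tm (2 ^ n * m + j) := by
  induction n with
  | zero => simp
  | succ n ih =>
    rw [Function.iterate_succ_apply', ih, sbt_map, ← pow_succ']
    congr 1
    funext j
    congr 1
    ring

theorem exists_tm (M : ℕ) (a : Bool) : ∃ m, M ≤ m ∧ tm m = a := by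
  by_cases h : tm (2 * M) = a
  · exact ⟨2 * M, by omega, h⟩
  · refine ⟨2 * M + 1, by omega, ?_⟩
    rw [tm_two_one]
    rw [tm_two] at h
    revert h
    cases tm M <;> cases a <;> simp

/-- every window of a point of the Morse subshift is a window of the Thue-Morse sequence at an
arbitrarily large place -/
theorem window {x : ℤ → Bool} (hx : x ∈ morseShift) (i : ℤ) (l M : ℕ) :
    ∃ q, M ≤ q ∧ ∀ j, j < l → x (i + (j : ℕ)) = tm (q + j) := by
  obtain ⟨n, a, -, hinf⟩ := hx i l
  obtain ⟨m, hm, rfl⟩ := exists_tm M a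
  rw [sbt_iter] at hinf
  obtain ⟨s, t, hst⟩ := hinf
  refine ⟨2 ^ n * m + s.length, ?_, ?_⟩
  · have : 1 ≤ 2 ^ n := Nat.one_le_two_pow
    nlinarith
  · intro j hj
    have hlen : s.length + l + t.length = 2 ^ n := by
      have := congrArg List.length hst
      simp only [List.length_append, List.length_ofFn, List.length_map, List.length_range] at this
      exact this
    have h1 : (s ++ (List.ofFn fun j : Fin l => x (i + (j : ℕ))) ++ t)[s.length + j]? =
        some (x (i + (j : ℕ))) := by
      rw [List.append_assoc, List.getElem?_append_right (by omega),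
        List.getElem?_append_left (by simp; omega)]
      have : s.length + j - s.length = j := by omega
      rw [this, List.getElem?_ofFn]
      simp [hj]
    rw [hst] at h1
    have h2 : ((List.range (2 ^ n)).map fun j => tm (2 ^ n * m + j))[s.length + j]? =
        some (tm (2 ^ n * m + (s.length + j))) := by
      rw [List.getElem?_map, List.getElem?_range (by omega)]
      rfl
    rw [h2] at h1
    rw [Option.some.injEq] at h1
    rw [← h1]
    congr 1
    ring

theorem window_mem {x : ℤ → Bool}
    (hx : ∀ (i : ℤ) (l : ℕ), ∃ q : ℕ, ∀ j, j < l → x (i + (j : ℕ)) = tm (q + j)) :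
    x ∈ morseShift := by
  intro i l
  obtain ⟨q, hq⟩ := hx i l
  have hlt : q + l < 2 ^ (q + l) := Nat.lt_two_pow_self
  refine ⟨q + l + 1, false, by omega, ?_⟩
  have h0 : sbt^[q + l + 1] [false] = (List.range (2 ^ (q + l + 1))).map fun j => tm j := by
    have := sbt_iter (q + l + 1) 0
    rw [tm_zero] at this
    rw [this]
    simp
  rw [h0]
  refine ⟨(List.range q).map tm, ((List.range (2 ^ (q + l + 1) - (q + l))).map
    fun j => tm (q + l + j)), ?_⟩
  have hl : 2 ^ (q + l + 1) = q + l + (2 ^ (q + l + 1) - (q + l)) := by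
    rw [pow_succ]
    omega
  rw [hl]
  have e : q + l + (2 ^ (q + l + 1) - (q + l)) - (q + l) = 2 ^ (q + l + 1) - (q + l) := by omega
  rw [e]
  generalize 2 ^ (q + l + 1) - (q + l) = r
  rw [List.range_add, List.range_add, List.map_append, List.map_append, List.map_map, List.map_map]
  congr 1
  congr 1
  apply List.ext_getElem
  · simp
  · intro j h1 h2
    simp only [List.getElem_ofFn, List.getElem_map, List.getElem_range, Function.comp_apply]
    apply hq
    simpa using h1

/-- the two-sided Thue-Morse sequence -/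
def x0 (n : ℤ) : Bool := if 0 ≤ n then tm n.toNat else tm (-1 - n).toNat

theorem x0_nat (n : ℕ) : x0 n = tm n := by
  unfold x0
  rw [if_pos (by omega)]
  rfl

theorem x0_win (k : ℕ) (n : ℤ) (h1 : -(4 ^ k : ℤ) ≤ n) (h2 : n < 4 ^ k) :
    x0 n = tm (6 * 4 ^ k + n).toNat := by
  have t5 : tm 5 = false := by
    have h1 := tm_two_one 2
    have h2 := tm_two 1
    have h3 := tm_two_one 0
    rw [h1, h2, h3, tm_zero]
    rfl
  have t6 : tm 6 = false := by
    have h1 := tm_two 3
    have h2 := tm_two_one 1
    have h3 := tm_two_one 0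
    rw [h1, h2, h3, tm_zero]
    rfl
  have h4 : (4 : ℕ) ^ k = 2 ^ (2 * k) := by
    rw [pow_mul]
    norm_num
  unfold x0
  by_cases h : 0 ≤ n
  · obtain ⟨m, rfl⟩ := Int.eq_ofNat_of_zero_le h
    rw [if_pos h]
    have hm : m < 4 ^ k := by exact_mod_cast h2
    have e : ((6 : ℤ) * 4 ^ k + (m : ℤ)).toNat = 2 ^ (2 * k) * 6 + m := by
      have : ((6 : ℤ) * 4 ^ k + (m : ℤ)) = ((2 ^ (2 * k) * 6 + m : ℕ) : ℤ) := by
        rw [← h4]
        push_cast
        ring
      rw [this]
      rfl
    rw [e, tm_pow _ _ _ (by omega), t6]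
    simp
  · rw [if_neg h]
    obtain ⟨m, hm⟩ : ∃ m : ℕ, n = -1 - (m : ℤ) := ⟨(-1 - n).toNat, by omega⟩
    have e0 : (-1 - n).toNat = m := by omega
    rw [e0]
    have hm2 : m < 4 ^ k := by
      have : (m : ℤ) < (4 ^ k : ℕ) := by
        push_cast
        omega
      exact_mod_cast this
    have e : ((6 : ℤ) * 4 ^ k + n).toNat = 2 ^ (2 * k) * 5 + (4 ^ k - 1 - m) := by
      have : ((6 : ℤ) * 4 ^ k + n) = ((2 ^ (2 * k) * 5 + (4 ^ k - 1 - m) : ℕ) : ℤ) := by
        rw [← h4, Nat.cast_add, Nat.cast_sub (by omega), Nat.cast_sub (by omega)]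
        push_cast
        rw [hm]
        ring
      rw [this]
      rfl
    rw [e, tm_pow _ _ _ (by omega), t5, tm_pal k m hm2]
    simp

theorem x0_mem : x0 ∈ morseShift := by
  apply window_mem
  intro i l
  obtain ⟨k, hk⟩ : ∃ k : ℕ, i.natAbs + l < 4 ^ k :=
    ⟨i.natAbs + l, Nat.lt_pow_self (by norm_num)⟩
  refine ⟨(6 * 4 ^ k + i).toNat, ?_⟩
  intro j hj
  have hk' : ((i.natAbs : ℤ) + l) < 4 ^ k := by exact_mod_cast hk
  rw [x0_win k (i + (j : ℕ)) (by omega) (by omega)]
  congr 1
  omega

end Pool.Agent.T6.H29.MO
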