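import Pool.Agent.H776R2.Om.Lower

/-!
The lower bound for the growth of `G_ω` for the sequences `ω` with `ω_j ≠ ω_(j+1)` for all `j`
(for instance `ω = 010101...`): the ball of radius `A 4^k` has at least `2^(2^k)` elements.
-/

set_option autoImplicit false

namespace Pool.Agent.T6.H29.MO

open Pool.Agent.Results.MP_03d093_al.SphereBall Pool.Agent.H776R2.Grig Pool.Agent.H776R2.Om

theorem ell_le_three_pow (ω : Om) (m : ℕ) : ell ω m ≤ 3 ^ m := by
  have h : ∀ x, nn ω m x ≤ 3 ^ m := by
    induction m with
    | zero => intro x; simp [nn]
    | succ m ih =>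
      intro x
      simp only [nn]
      split_ifs
      · have h1 := ih .b
        have h2 := ih .c
        have h3 := ih .d
        rw [pow_succ]
        omega
      · have h1 := ih x
        rw [pow_succ]
        omega
  unfold ell
  exact max_le (h _) (max_le (h _) (h _))

theorem realize_ne {ω : Om} (h : ∀ j, ω j ≠ ω (j + 1)) : ∃ A : ℕ, ∀ (k : ℕ)
    (p : List Bool → Bool), ∃ w : List Lt,
    w.length ≤ A * 4 ^ k ∧ Lab (k + 2) (fun u => p (u.take k)) (evo ω w) := by
  choose Sc hS using fun s => specialo ω s
  set S : ℕ := ∑ s ∈ Finset.range 5, Sc s with hSdef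
  have hSle : ∀ s, s < 5 → Sc s ≤ S := fun s hs =>
    Finset.single_le_sum (f := Sc) (fun _ _ => Nat.zero_le _) (Finset.mem_range.2 hs)
  set A : ℕ := S + 1 with hA
  refine ⟨A, ?_⟩
  intro k
  induction k using Nat.strong_induction_on with
  | _ k ih =>
    intro p
    by_cases hk : k < 4
    · obtain ⟨w, hw, hl⟩ := hS k (fun y => p (y.take k)) 0 (by simpa using h k)
      refine ⟨w, ?_, ?_⟩
      · have h1 := hSle k (by omega)
        have h2 : 1 ≤ 4 ^ k := Nat.one_le_pow _ _ (by norm_num)
        rw [ell_zero, mul_one] at hw
        calc w.length ≤ Sc k := hw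
          _ ≤ S := h1
          _ ≤ A * 1 := by omega
          _ ≤ A * 4 ^ k := Nat.mul_le_mul_left _ h2
      · rw [zero_add] at hl
        refine lab_congr ?_ hl
        intro u _
        simp only [List.drop_zero, List.take_take]
        rw [min_eq_left (by omega)]
    · obtain ⟨m, rfl⟩ : ∃ m, k = m + 4 := ⟨k - 4, by omega⟩
      obtain ⟨ws, hws, hls⟩ := hS 2 (fun y => y.getD (m + 2 - m) false) m (h _)
      have hws' : ws.length ≤ S * ell ω m :=
        hws.trans (Nat.mul_le_mul_right _ (hSle _ (by omega)))
      have key : ∀ t : List Bool, t.length = 4 → ∀ q : List Bool → Bool, ∃ w : List Lt,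
          w.length ≤ 4 * (A * 4 ^ m) + 6 * (S * ell ω m) ∧
          Lab (m + 4 + 2) (fun u => decide ((u.drop m).take 4 = t) && q (u.take m))
            (evo ω w) := by
        intro t ht q
        obtain ⟨we, hwe, hle⟩ := ih m (by omega) q
        obtain ⟨wt, hwt, hlt⟩ := hS 4
          (fun y => decide (y.take 4 = t) && y.getD (m + 2 + 2 - m) false) m (h _)
        have hwt' : wt.length ≤ S * ell ω m :=
          hwt.trans (Nat.mul_le_mul_right _ (hSle _ (by omega)))
        -- first commutator
        have hs' : Lab (m + 2 + 2) (fun u => (fun _ : List Bool => true) (u.take (m + 2)) &&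
            u.getD (m + 2) false) (evo ω ws) := by
          refine lab_congr ?_ hls
          intro u hu
          simp only [Bool.true_and]
          exact R_getD u m _ (m + 2) (by omega) (by omega)
        have c1 := lab_commo ω (j := m + 2) (n := m + 2 + 2) (by omega)
          (q := fun v => q (v.take m)) (μ := fun _ => true) hle hs'
        have c1' : Lab (m + 2 + 2) (fun u => q (u.take m))
            (evo ω (we ++ ws ++ we.reverse ++ ws.reverse)) := by
          refine lab_congr ?_ c1
          intro u hu
          simp only [Bool.true_and, List.take_take]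
          rw [min_eq_left (by omega)]
        -- second commutator
        have ht' : Lab (m + 4 + 2) (fun u =>
            (fun v : List Bool => decide ((v.drop m).take 4 = t)) (u.take (m + 2 + 2))
            && u.getD (m + 2 + 2) false) (evo ω wt) := by
          refine lab_congr ?_ hlt
          intro u hu
          have e1 : ((u.drop m).take (4 + 1)).take 4 =
              ((u.take (m + 2 + 2)).drop m).take 4 := by
            rw [List.take_take, List.drop_take, List.take_take]
            congr 1
            omega
          have e2 := R_getD u m (4 + 1) (m + 2 + 2) (by omega) (by omega)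
          simp only [e1, e2]
        have c2 := lab_commo ω (j := m + 2 + 2) (n := m + 4 + 2) (by omega)
          (q := fun v => q (v.take m))
          (μ := fun v => decide ((v.drop m).take 4 = t)) c1' ht'
        refine ⟨_, ?_, lab_congr ?_ c2⟩
        · simp only [List.length_append, List.length_reverse]
          omega
        · intro u hu
          have e1 : ((u.take (m + 2 + 2)).drop m).take 4 = (u.drop m).take 4 := by
            rw [List.drop_take, List.take_take]
            congr 1
            omega
          have e2 : (u.take (m + 2 + 2)).take m = u.take m := by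
            rw [List.take_take]
            congr 1
            omega
          simp only [e1, e2]
      obtain ⟨w, hw, hl⟩ := R_split (ω := ω) (n := m + 4 + 2) (m := m) (r := 4) (by omega)
        _ key p
      refine ⟨w, hw.trans ?_, hl⟩
      have h8 : ell ω m ≤ 4 ^ m :=
        (ell_le_three_pow ω m).trans (Nat.pow_le_pow_left (by norm_num) m)
      have h9 : S * ell ω m ≤ A * 4 ^ m := Nat.mul_le_mul (by omega) h8
      have h10 : A * 4 ^ (m + 4) = 256 * (A * 4 ^ m) := by ring
      rw [h10]
      omega

theorem ballO_lower_ne {ω : Om} (h : ∀ j, ω j ≠ ω (j + 1)) : ∃ A : ℕ, ∀ k : ℕ,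
    2 ^ 2 ^ k ≤ ballO ω (A * 4 ^ k) := by
  obtain ⟨A, hA⟩ := realize_ne h
  refine ⟨A, fun k => ?_⟩
  choose w hw1 hw2 using fun f : List.Vector Bool k → Bool => hA k (L_ext f)
  have hlen : ∀ f, lenO ω (evG ω (w f)) ≤ A * 4 ^ k := fun f =>
    (lenO_le ω (w f)).trans (hw1 f)
  let Φ : (List.Vector Bool k → Bool) → {g : Gom ω // lenO ω g ≤ A * 4 ^ k} :=
    fun f => ⟨evG ω (w f), hlen f⟩
  have hinj : Function.Injective Φ := by
    intro f f' hff
    have h1 : evo ω (w f) = evo ω (w f') := by
      have h2 : evG ω (w f) = evG ω (w f') := congrArg Subtype.val hff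
      exact congrArg Subtype.val h2
    funext v
    have h3 := hw2 f
    rw [h1] at h3
    have h4 := L_unique (by omega) h3 (hw2 f') v.1 v.2
    rwa [L_ext_apply, L_ext_apply] at h4
  have : Finite {g : Gom ω // lenO ω g ≤ A * 4 ^ k} := (ballO_finite ω _).to_subtype
  have h5 := Nat.card_le_card_of_injective Φ hinj
  have h6 : Nat.card (List.Vector Bool k → Bool) = 2 ^ 2 ^ k := by
    rw [Nat.card_eq_fintype_card, Fintype.card_fun, card_vector, Fintype.card_bool]
  rw [h6] at h5
  exact h5

end Pool.Agent.T6.H29.MO
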