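import Pool.Agent.H776R2.Om.Upper
import Pool.Agent.T6.H29.MO.Low

/-!
The growth of `G_ω`, `ω = 010101...`, is faster than every polynomial and slower than every
exponential.
-/

set_option autoImplicit false

namespace Pool.Agent.T6.H29.MO

open Pool.Agent.Results.MP_03d093_al.SphereBall Pool.Agent.H776R2.Grig Pool.Agent.H776R2.Om
open Filter

/-- the sequence `0, 1, 0, 1, ...` -/
def alt : Om := fun n => if n % 2 = 0 then 0 else 1

theorem alt_ne (j : ℕ) : alt j ≠ alt (j + 1) := by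
  unfold alt
  rcases Nat.mod_two_eq_zero_or_one j with h | h
  · have h2 : (j + 1) % 2 ≠ 0 := by omega
    rw [if_pos h, if_neg h2]
    decide
  · have h1 : j % 2 ≠ 0 := by omega
    have h2 : (j + 1) % 2 = 0 := by omega
    rw [if_neg h1, if_pos h2]
    decide

/-! ### lower bound -/

theorem sq_le_two_pow (k : ℕ) (hk : 4 ≤ k) : k ^ 2 ≤ 2 ^ k := by
  induction k, hk using Nat.le_induction with
  | base => norm_num
  | succ k hk ih =>
    rw [pow_succ 2 k]
    nlinarith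

theorem lower_poly {ω : Om} (h : ∀ j, ω j ≠ ω (j + 1)) (d : ℕ) (C : ℝ) :
    ∀ᶠ n : ℕ in atTop, C * (n : ℝ) ^ d < ballO ω n := by
  obtain ⟨A0, hA0⟩ := ballO_lower_ne h
  set A : ℕ := A0 + 1 with hA
  have hA' : ∀ k : ℕ, 2 ^ 2 ^ k ≤ ballO ω (A * 4 ^ k) := fun k =>
    (hA0 k).trans (ballO_mono ω (Nat.mul_le_mul_right _ (by omega)))
  obtain ⟨c0, hc0⟩ : ∃ c0 : ℕ, C * (A : ℝ) ^ d ≤ 2 ^ c0 := by
    obtain ⟨c, hc⟩ := pow_unbounded_of_one_lt (C * (A : ℝ) ^ d) (by norm_num : (1 : ℝ) < 2)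
    exact ⟨c, hc.le⟩
  set K : ℕ := c0 + 4 * d + 8 with hK
  refine eventually_atTop.2 ⟨A * 4 ^ K, fun n hn => ?_⟩
  -- the scale
  obtain ⟨k, hk1, hk2, hk3⟩ : ∃ k, K ≤ k ∧ A * 4 ^ k ≤ n ∧ n < A * 4 ^ (k + 1) := by
    have hex : ∃ j, n < A * 4 ^ j := by
      refine ⟨n, ?_⟩
      have h1 : n < 4 ^ n := Nat.lt_pow_self (by norm_num)
      calc n < 4 ^ n := h1
        _ ≤ A * 4 ^ n := Nat.le_mul_of_pos_left _ (by omega)
    classical
    set j := Nat.find hex with hj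
    have hj1 : n < A * 4 ^ j := Nat.find_spec hex
    have hjK : K < j := by
      by_contra hlt
      push Not at hlt
      have h2 : A * 4 ^ j ≤ A * 4 ^ K :=
        Nat.mul_le_mul_left _ (Nat.pow_le_pow_right (by norm_num) hlt)
      omega
    obtain ⟨k, hk⟩ : ∃ k, j = k + 1 := ⟨j - 1, by omega⟩
    refine ⟨k, by omega, ?_, by rw [← hk]; exact hj1⟩
    have h3 := Nat.find_min hex (m := k) (by omega)
    omega
  have h1 : (2 : ℝ) ^ 2 ^ k ≤ ballO ω n := by
    have := (hA' k).trans (ballO_mono ω hk2)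
    exact_mod_cast this
  refine lt_of_lt_of_le ?_ h1
  have hn2 : (n : ℝ) ≤ A * 4 ^ (k + 1) := by exact_mod_cast hk3.le
  rcases le_or_gt C 0 with hC | hC
  · have h5 : C * (n : ℝ) ^ d ≤ 0 := mul_nonpos_of_nonpos_of_nonneg hC (by positivity)
    have h6 : (0 : ℝ) < 2 ^ 2 ^ k := by positivity
    linarith
  · calc C * (n : ℝ) ^ d ≤ C * ((A : ℝ) * 4 ^ (k + 1)) ^ d := by gcongr
      _ = (C * (A : ℝ) ^ d) * (4 ^ (k + 1)) ^ d := by rw [mul_pow]; ring
      _ ≤ 2 ^ c0 * (4 ^ (k + 1)) ^ d := by gcongr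
      _ = 2 ^ (c0 + 2 * (k + 1) * d) := by
          rw [show (4 : ℝ) = 2 ^ 2 by norm_num, ← pow_mul, ← pow_mul, ← pow_add, mul_assoc]
      _ < 2 ^ 2 ^ k := by
          apply pow_lt_pow_right₀ (by norm_num)
          have h7 := sq_le_two_pow k (by omega)
          nlinarith [Nat.zero_le d, Nat.zero_le c0]

/-! ### upper bound -/

noncomputable def rr (s : ℝ) (α : V → ℝ) (x : V) : ENNReal := ENNReal.ofReal (Real.exp (-s * α x))

theorem Kwo_U (α : V → ℝ) (v : List V) : Kwo α (U v) = (v.map α).sum := by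
  induction v with
  | nil => rfl
  | cons x v ih => rw [C_Kw_U_cons, ih, C_wt_lt]; simp

theorem exp_prod (s : ℝ) (α : V → ℝ) (v : List V) :
    ENNReal.ofReal (Real.exp (-s * Kwo α (U v))) = (v.map (rr s α)).prod := by
  rw [Kwo_U]
  induction v with
  | nil => simp
  | cons x v ih =>
    simp only [List.map_cons, List.sum_cons, List.prod_cons]
    rw [← ih, rr, ← ENNReal.ofReal_mul (Real.exp_pos _).le, ← Real.exp_add]
    congr 2
    ring

instance : Fintype V := ⟨{.b, .c, .d}, by intro x; cases x <;> simp⟩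

theorem tsum_lists (r : V → ENNReal) :
    ∑' v : List V, (v.map r).prod = ∑' n : ℕ, (∑ x, r x) ^ n := by
  rw [← (List.equivSigmaTuple (α := V)).symm.tsum_eq, ENNReal.tsum_sigma']
  refine tsum_congr fun n => ?_
  rw [tsum_fintype]
  have h := (Fintype.sum_pow r n)
  rw [h]
  refine Finset.sum_congr rfl fun f _ => ?_
  have e : (List.equivSigmaTuple (α := V)).symm ⟨n, f⟩ = List.ofFn f := rfl
  rw [e, List.map_ofFn, List.prod_ofFn]
  rfl

theorem ZO_words (η : Om) (α : V → ℝ) (hα : Tri α) (s : ℝ) (hs : 0 ≤ s) :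
    ZO η α s ≤ ENNReal.ofReal (Real.exp s) * (4 * ∑' n : ℕ, (∑ x, rr s α x) ^ n) := by
  have hw : ∀ g : Gom η, ∃ p : Bool × Bool × List V,
      pa p.1 * evo η (U p.2.2) * pa p.2.1 = g ∧ Kwo α (U p.2.2) ≤ KO η α g + 1 := by
    intro g
    obtain ⟨w, hw1, hw2⟩ := E_exists α g.2 one_pos
    obtain ⟨e, e', v, h1, -, h3, -⟩ := normal_formo η α hα w
    exact ⟨⟨e, e', v⟩, by rw [← h1, hw1], by linarith⟩
  choose p hp1 hp2 using hw
  have hinj : Function.Injective p := by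
    intro g h hgh
    apply Subtype.ext
    rw [← hp1 g, ← hp1 h, hgh]
  set F : Bool × Bool × List V → ENNReal := fun q =>
    ENNReal.ofReal (Real.exp s) * (q.2.2.map (rr s α)).prod with hF
  have h1 : ZO η α s ≤ ∑' q, F q := by
    unfold ZO
    refine (ENNReal.tsum_le_tsum fun g => ?_).trans
      (ENNReal.tsum_comp_le_tsum_of_injective hinj F)
    simp only [hF]
    rw [← exp_prod, ← ENNReal.ofReal_mul (Real.exp_pos _).le, ← Real.exp_add]
    apply ENNReal.ofReal_le_ofReal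
    apply Real.exp_le_exp.2
    have := mul_le_mul_of_nonneg_left (hp2 g) hs
    linarith
  refine h1.trans (le_of_eq ?_)
  simp only [hF]
  rw [ENNReal.tsum_mul_left, ENNReal.tsum_prod']
  congr 1
  rw [tsum_fintype, Fintype.sum_bool]
  simp only
  rw [ENNReal.tsum_prod', tsum_fintype, Fintype.sum_bool]
  simp only
  rw [tsum_lists]
  ring

theorem ZO_lt_top {η : Om} {α : V → ℝ} (hα : Tri α) {s : ℝ} (hs : 0 ≤ s)
    (h : Real.exp (-s * α .b) + Real.exp (-s * α .c) + Real.exp (-s * α .d) < 1) :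
    ZO η α s < ⊤ := by
  refine lt_of_le_of_lt (ZO_words η α hα s hs) ?_
  refine ENNReal.mul_lt_top ENNReal.ofReal_lt_top (ENNReal.mul_lt_top (by simp) ?_)
  rw [ENNReal.tsum_geometric, ENNReal.inv_lt_top, tsub_pos_iff_lt]
  have h1 : ∑ x, rr s α x = rr s α .b + rr s α .c + rr s α .d := by
    have : (Finset.univ : Finset V) = {.b, .c, .d} := rfl
    rw [this]
    simp [add_assoc]
  rw [h1]
  unfold rr
  rw [← ENNReal.ofReal_add (Real.exp_pos _).le (Real.exp_pos _).le,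
    ← ENNReal.ofReal_add (by positivity) (Real.exp_pos _).le, ENNReal.ofReal_lt_one]
  exact h

theorem al_alt (j : ℕ) : al alt (2 * j) .b = 1 ∧ (1 : ℝ) / 2 * j ≤ al alt (2 * j) .c ∧
    (1 : ℝ) / 2 * j ≤ al alt (2 * j) .d := by
  induction j with
  | zero =>
    rw [mul_zero]
    simp only [al_zero]
    norm_num
  | succ j ih =>
    obtain ⟨h1, h2, h3⟩ := ih
    have e0 : alt (2 * j) = 0 := by unfold alt; rw [if_pos (by omega)]
    have e1 : alt (2 * j + 1) = 1 := by unfold alt; rw [if_neg (by omega)]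
    have s1 : al alt (2 * j + 1) = stp .d (al alt (2 * j)) := by rw [al_succ, e0]; rfl
    have s2 : al alt (2 * (j + 1)) = stp .c (al alt (2 * j + 1)) := by
      rw [show 2 * (j + 1) = 2 * j + 1 + 1 by ring, al_succ, e1]; rfl
    rw [s2, s1]
    simp only [stp, if_true]
    rw [if_neg (by decide), if_neg (by decide), if_neg (by decide), if_neg (by decide), h1]
    push_cast
    refine ⟨rfl, ?_, ?_⟩ <;> linarith

theorem exists_scale (s : ℝ) (hs : 0 < s) : ∃ j : ℕ,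
    Real.exp (-s * al alt (2 * j) .b) + Real.exp (-s * al alt (2 * j) .c) +
      Real.exp (-s * al alt (2 * j) .d) < 1 := by
  have h1 : Real.exp (-s) < 1 := Real.exp_lt_one_iff.2 (by linarith)
  have h2 : 0 < (1 - Real.exp (-s)) / 2 := by linarith
  obtain ⟨j, hj⟩ : ∃ j : ℕ, Real.exp (-s * ((1 : ℝ) / 2 * j)) < (1 - Real.exp (-s)) / 2 := by
    have h3 : Real.exp (-s * ((1 : ℝ) / 2)) < 1 := Real.exp_lt_one_iff.2 (by linarith)
    obtain ⟨j, hj⟩ := exists_pow_lt_of_lt_one h2 h3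
    refine ⟨j, ?_⟩
    rw [← Real.exp_nat_mul] at hj
    have e : -s * ((1 : ℝ) / 2 * j) = j * (-s * ((1 : ℝ) / 2)) := by ring
    rw [e]
    exact hj
  refine ⟨j, ?_⟩
  obtain ⟨e1, e2, e3⟩ := al_alt j
  rw [e1]
  have h4 : Real.exp (-s * al alt (2 * j) .c) ≤ Real.exp (-s * ((1 : ℝ) / 2 * j)) := by
    apply Real.exp_le_exp.2
    nlinarith
  have h5 : Real.exp (-s * al alt (2 * j) .d) ≤ Real.exp (-s * ((1 : ℝ) / 2 * j)) := by
    apply Real.exp_le_exp.2
    nlinarith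
  have h6 : Real.exp (-s * 1) = Real.exp (-s) := by rw [mul_one]
  rw [h6]
  linarith

theorem ZO_alt_lt_top (s : ℝ) (hs : 0 < s) : ZO alt (al alt 0) s < ⊤ := by
  obtain ⟨j, hj⟩ := exists_scale s hs
  have h1 : ZO (shi (2 * j) alt) (al alt (2 * j)) s < ⊤ := ZO_lt_top (al_tri _ _) hs.le hj
  have h2 := F_iter alt (2 * j) s (2 * s * ((ell alt (2 * j) : ℝ) / 2 ^ (2 * j))) hs.le le_rfl
    (2 * j) 0 (by omega)
  rw [shi_zero] at h2
  set D : ENNReal := 2 * ENNReal.ofReal (Real.exp (2 * s * ((ell alt (2 * j) : ℝ) / 2 ^ (2 * j))))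
    with hD
  have hD1 : 1 ≤ D := by
    have h3 : (1 : ENNReal) ≤
        ENNReal.ofReal (Real.exp (2 * s * ((ell alt (2 * j) : ℝ) / 2 ^ (2 * j)))) := by
      rw [ENNReal.one_le_ofReal]
      exact Real.one_le_exp (by positivity)
    calc (1 : ENNReal) = 1 * 1 := by simp
      _ ≤ D := by
          rw [hD]
          gcongr
          norm_num
  have hDt : D < ⊤ := ENNReal.mul_lt_top (by simp) ENNReal.ofReal_lt_top
  calc ZO alt (al alt 0) s = 1 * ZO alt (al alt 0) s := by simp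
    _ ≤ D * ZO alt (al alt 0) s := by gcongr
    _ ≤ (D * ZO (shi (2 * j) alt) (al alt (2 * j)) s) ^ 2 ^ (2 * j) := h2
    _ < ⊤ := ENNReal.pow_lt_top (ENNReal.mul_lt_top hDt h1)

theorem upper_exp (c : ℝ) (hc : 0 < c) :
    ∀ᶠ n : ℕ in atTop, (ballO alt n : ℝ) < Real.exp (c * n) := by
  have hZ := ZO_alt_lt_top (c / 2) (by linarith)
  set Z := (ZO alt (al alt 0) (c / 2)).toReal with hZdef
  have h1 : ∀ n : ℕ, (ballO alt n : ℝ) ≤ Real.exp (c / 2 * n) * Z := by
    intro n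
    have h2 := F_ball alt n (c / 2) (by linarith)
    have h3 : (ZO alt (al alt 0) (c / 2)) = ENNReal.ofReal Z := by
      rw [hZdef, ENNReal.ofReal_toReal hZ.ne]
    rw [h3, ← ENNReal.ofReal_mul (Real.exp_pos _).le, ← ENNReal.ofReal_natCast] at h2
    exact (ENNReal.ofReal_le_ofReal_iff (by positivity)).1 h2
  have h4 : Tendsto (fun n : ℕ => Real.exp (c / 2 * n)) atTop atTop :=
    Real.tendsto_exp_atTop.comp
      (Tendsto.const_mul_atTop (by linarith) tendsto_natCast_atTop_atTop)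
  filter_upwards [h4.eventually_gt_atTop Z] with n hn
  refine (h1 n).trans_lt ?_
  have h5 : Real.exp (c * n) = Real.exp (c / 2 * n) * Real.exp (c / 2 * n) := by
    rw [← Real.exp_add]
    congr 1
    ring
  rw [h5]
  exact mul_lt_mul_of_pos_left hn (Real.exp_pos _)

theorem lower_alt (d : ℕ) (C : ℝ) : ∀ᶠ n : ℕ in atTop, C * (n : ℝ) ^ d < ballO alt n :=
  lower_poly alt_ne d C

end Pool.Agent.T6.H29.MO
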