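import Pool.Agent.T6.H29.MO.Gray
import Pool.Agent.T6.H29.MO.TM
import Pool.Agent.T6.H29.MO.Up

/-!
The action of the letters on the Morse subshift.
-/

set_option autoImplicit false

namespace Pool.Agent.T6.H29.MO

open Pool.Agent.Results.MP_03d093_al.SphereBall Pool.Agent.H776R2.Grig Pool.Agent.H776R2.Om

/-- displacement of a letter at a place with the window `p, x, y, z` (places `-1, 0, 1, 2`) -/
def del (s : Lt) (p x y z : Bool) : ℤ :=
  match s with
  | .A => if p = x ∨ y = z then 1 else -1
  | .B => if p = x ∨ y = z then -1 else 1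
  | .C => if p = x then -1 else if x = y then 1 else 0
  | .D => if p = x ∨ y = z then (if p = x then 0 else -1) else (if x = y then 0 else 1)

/-- the move of a letter on the places of the Thue-Morse sequence -/
def mv (s : Lt) (q : ℕ) : ℕ :=
  match s with
  | .A => mvA q
  | .B => mvX .b alt q
  | .C => mvX .c alt q
  | .D => mvX .d alt q

theorem alt_even {k : ℕ} (h : Even k) : alt k = 0 := by
  unfold alt
  rw [if_pos (Nat.even_iff.1 h)]

theorem alt_odd {k : ℕ} (h : ¬ Even k) : alt k = 1 := by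
  unfold alt
  rw [if_neg (fun h' => h (Nat.even_iff.2 h'))]

theorem col_b (k : ℕ) : col (alt k) .b = true := by
  by_cases h : Even k
  · rw [alt_even h]; rfl
  · rw [alt_odd h]; rfl

theorem col_c (k : ℕ) : col (alt k) .c = true ↔ Even k := by
  by_cases h : Even k
  · rw [alt_even h]; simp [h, col]
  · rw [alt_odd h]; simp [h, col]

theorem col_d (k : ℕ) : col (alt k) .d = true ↔ ¬ Even k := by
  by_cases h : Even k
  · rw [alt_even h]; simp [h, col]
  · rw [alt_odd h]; simp [h, col]

theorem mv_del (s : Lt) (q : ℕ) (hq : 1 ≤ q) :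
    ((mv s q : ℕ) : ℤ) = q + del s (tm (q - 1)) (tm q) (tm (q + 1)) (tm (q + 2)) := by
  have hpar := tm_parity q hq
  rcases Nat.mod_two_eq_zero_or_one q with h | h
  · -- `q = 2 j`
    obtain ⟨j, rfl⟩ : ∃ j, q = 2 * j := ⟨q / 2, by omega⟩
    have hj : 1 ≤ j := by omega
    have hed := tm_edge j hj
    have hne := tm_ne j
    have hor := hpar.1 h
    have e1 : (2 * j + 1) / 2 = j := by omega
    cases s
    · simp only [mv, mvA, del]
      rw [if_pos h, if_pos hor]
      push_cast
      ring
    · simp only [mv, mvX, del, e1]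
      rw [if_pos (col_b _), if_pos h, if_pos hor]
      omega
    · simp only [mv, mvX, del, e1, col_c, ← hed]
      by_cases h1 : tm (2 * j - 1) = tm (2 * j)
      · rw [if_pos h1, if_pos h, if_pos h1]
        omega
      · rw [if_neg h1, if_neg h1, if_neg hne]
        simp
    · simp only [mv, mvX, del, e1, col_d, ← hed]
      rw [if_pos hor]
      by_cases h1 : tm (2 * j - 1) = tm (2 * j)
      · rw [if_neg (not_not.2 h1), if_pos h1]
        simp
      · rw [if_pos h1, if_pos h, if_neg h1]
        omega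
  · obtain ⟨i, rfl⟩ : ∃ i, q = 2 * i + 1 := ⟨q / 2, by omega⟩
    have hed := tm_edge (i + 1) (by omega)
    have hne := tm_ne i
    have hor : ¬ (tm (2 * i + 1 - 1) = tm (2 * i + 1) ∨ tm (2 * i + 1 + 1) = tm (2 * i + 1 + 2)) := by
      intro h'
      have := hpar.2 h'
      omega
    have e1 : (2 * i + 1 + 1) / 2 = i + 1 := by omega
    have h' : ¬ (2 * i + 1) % 2 = 0 := by omega
    have e2 : 2 * (i + 1) - 1 = 2 * i + 1 := by omega
    have e3 : 2 * (i + 1) = 2 * i + 1 + 1 := by omega
    rw [e2, e3] at hed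
    have hne' : ¬ tm (2 * i + 1 - 1) = tm (2 * i + 1) := fun h'' => hor (Or.inl h'')
    cases s
    · simp only [mv, mvA, del]
      rw [if_neg h', if_neg hor]
      omega
    · simp only [mv, mvX, del, e1]
      rw [if_pos (col_b _), if_neg h', if_neg hor]
      push_cast
      ring
    · simp only [mv, mvX, del, e1, col_c, ← hed]
      rw [if_neg hne']
      by_cases h1 : tm (2 * i + 1) = tm (2 * i + 1 + 1)
      · rw [if_pos h1, if_neg h', if_pos h1]
        push_cast
        ring
      · rw [if_neg h1, if_neg h1]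
        simp
    · simp only [mv, mvX, del, e1, col_d, ← hed]
      rw [if_neg hor]
      by_cases h1 : tm (2 * i + 1) = tm (2 * i + 1 + 1)
      · rw [if_neg (not_not.2 h1), if_pos h1]
        simp
      · rw [if_pos h1, if_neg h', if_neg h1]
        push_cast
        ring

theorem mvA_invol (q : ℕ) : mvA (mvA q) = q := by
  unfold mvA
  split_ifs <;> omega

theorem mvX_invol (x : V) (ω : Om) (q : ℕ) (hq : 1 ≤ q) : mvX x ω (mvX x ω q) = q := by
  have h1 : (mvX x ω q + 1) / 2 = (q + 1) / 2 := by
    unfold mvX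
    split_ifs <;> omega
  unfold mvX at h1 ⊢
  rw [h1]
  split_ifs <;> omega

theorem mv_invol (s : Lt) (q : ℕ) (hq : 1 ≤ q) : mv s (mv s q) = q := by
  cases s
  · exact mvA_invol q
  · exact mvX_invol _ _ q hq
  · exact mvX_invol _ _ q hq
  · exact mvX_invol _ _ q hq

theorem del_abs (s : Lt) (p x y z : Bool) : |del s p x y z| ≤ 1 := by
  cases s <;> cases p <;> cases x <;> cases y <;> cases z <;> decide

/-- displacement at `x` -/
def dis (s : Lt) (x : MS) : ℤ := del s (x.1 (-1)) (x.1 0) (x.1 1) (x.1 2)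

theorem dis_cont (s : Lt) : Continuous (dis s) := by
  have h : Continuous fun x : MS => (x.1 (-1), x.1 0, x.1 1, x.1 2) := by
    refine Continuous.prodMk ?_ (Continuous.prodMk ?_ (Continuous.prodMk ?_ ?_)) <;>
      exact (continuous_apply _).comp continuous_subtype_val
  have h2 : Continuous fun w : Bool × Bool × Bool × Bool => del s w.1 w.2.1 w.2.2.1 w.2.2.2 :=
    continuous_of_discreteTopology
  exact h2.comp h

/-- a window centred at the origin -/
theorem centred (x : MS) (L : ℕ) : ∃ q : ℕ, L + 1 ≤ q ∧ ∀ n : ℤ, |n| ≤ L → x.1 n = tm (q + n).toNat := by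
  obtain ⟨q, hq, h⟩ := window x.2 (-(L : ℤ)) (2 * L + 1) 1
  refine ⟨q + L, by omega, ?_⟩
  intro n hn
  rw [abs_le] at hn
  have h1 := h (n + L).toNat (by omega)
  have e1 : -(L : ℤ) + ((n + L).toNat : ℕ) = n := by omega
  rw [e1] at h1
  rw [h1]
  congr 1
  omega

/-- displacement along a window -/
theorem dis_shf (s : Lt) (x : MS) (q : ℕ) (L : ℕ) (hL : ∀ n : ℤ, |n| ≤ L → x.1 n = tm (q + n).toNat)
    (m : ℤ) (hm : |m| + 2 ≤ L) (r : ℕ) (hr : (r : ℤ) = q + m) (hr1 : 1 ≤ r) :
    dis s (shf m x) = (mv s r : ℕ) - r := by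
  rw [mv_del s r hr1]
  have hm' := abs_le.1 (show |m| ≤ L - 2 by omega)
  have h : ∀ i : ℤ, |i| ≤ 2 → (shf m x).1 i = tm (r + i).toNat := by
    intro i hi
    show x.1 (i + m) = _
    rw [abs_le] at hi
    rw [hL (i + m) (by rw [abs_le]; omega)]
    congr 2
    omega
  unfold dis
  rw [h (-1) (by norm_num), h 0 (by norm_num), h 1 (by norm_num), h 2 (by norm_num)]
  have e1 : ((r : ℤ) + -1).toNat = r - 1 := by omega
  have e2 : ((r : ℤ) + 0).toNat = r := by omega
  have e3 : ((r : ℤ) + 1).toNat = r + 1 := by omega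
  have e4 : ((r : ℤ) + 2).toNat = r + 2 := by omega
  rw [e1, e2, e3, e4]
  ring

theorem mv_pos (s : Lt) (q : ℕ) : q ≤ mv s q + 1 ∧ mv s q ≤ q + 1 := by
  cases s
  · simp only [mv, mvA]
    split_ifs <;> omega
  all_goals
    simp only [mv, mvX]
    split_ifs <;> omega

section ext

variable {Y : Type} [TopologicalSpace Y] (S : Y ≃ₜ Y) (π : Y → MS)

theorem zpow_add_apply (m n : ℤ) (y : Y) : (S ^ m) ((S ^ n) y) = (S ^ (m + n)) y := by
  rw [zpow_add]
  rfl

theorem pi_zpow (hS : ∀ y, π (S y) = T (π y)) (m : ℤ) (y : Y) : π ((S ^ m) y) = shf m (π y) := by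
  have hneg : ∀ y, π (S⁻¹ y) = shf (-1) (π y) := by
    intro y
    have h1 := hS (S⁻¹ y)
    have h2 : S (S⁻¹ y) = y := by
      show (S * S⁻¹) y = y
      rw [mul_inv_cancel]
      rfl
    rw [h2] at h1
    rw [h1]
    show _ = shf (-1) (shf 1 (π (S⁻¹ y)))
    rw [shf_shf]
    exact (shf_zero _).symm
  induction m using Int.induction_on generalizing y with
  | zero =>
    rw [zpow_zero, shf_zero]
    rfl
  | succ m ih =>
    rw [← zpow_add_apply, ih, zpow_one, hS]
    show shf m (shf 1 (π y)) = _
    rw [shf_shf]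
  | pred m ih =>
    have e : (-(m : ℤ) - 1) = -(m : ℤ) + -1 := by ring
    rw [e, ← zpow_add_apply, ih, zpow_neg_one, hneg, shf_shf]

theorem zpow_cont (m : ℤ) : Continuous fun y : Y => (S ^ m) y := (S ^ m).continuous

theorem pow_cont {D : Y → ℤ} (hD : Continuous D) : Continuous fun y => (S ^ D y) y := by
  rw [continuous_iff_continuousAt]
  intro x
  have h1 : ∀ᶠ y in nhds x, D y = D x := by
    have := (hD.continuousAt (x := x)).preimage_mem_nhds (t := {D x}) (by simp)
    filter_upwards [this] with y hy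
    exact hy
  refine (zpow_cont S (D x)).continuousAt.congr ?_
  filter_upwards [h1] with y hy
  rw [hy]

/-- the action of a letter on an extension -/
def act (s : Lt) (y : Y) : Y := (S ^ dis s (π y)) y

theorem act_cont (hπ : Continuous π) (s : Lt) : Continuous (act S π s) :=
  pow_cont S ((dis_cont s).comp hπ)

theorem act_invol (hS : ∀ y, π (S y) = T (π y)) (s : Lt) (y : Y) : act S π s (act S π s y) = y := by
  obtain ⟨q, hq, hL⟩ := centred (π y) 4
  have h1 := dis_shf s (π y) q 4 hL 0 (by norm_num) q (by simp) (by omega)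
  rw [shf_zero] at h1
  have hmv := mv_pos s q
  have h2 := dis_shf s (π y) q 4 hL (dis s (π y)) (by
    have := del_abs s ((π y).1 (-1)) ((π y).1 0) ((π y).1 1) ((π y).1 2)
    have h3 : |dis s (π y)| ≤ 1 := this
    push_cast
    linarith) (mv s q) (by rw [h1]; ring) (by omega)
  unfold act
  rw [pi_zpow S π hS, h2, zpow_add_apply, mv_invol s q (by omega), h1]
  have e : ((q : ℤ) - (mv s q : ℕ) + ((mv s q : ℕ) - q)) = 0 := by ring
  rw [e, zpow_zero]
  rfl

/-- the homeomorphism of a letter -/
def gX (hπ : Continuous π) (hS : ∀ y, π (S y) = T (π y)) (s : Lt) : Y ≃ₜ Y where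
  toFun := act S π s
  invFun := act S π s
  left_inv := act_invol S π hS s
  right_inv := act_invol S π hS s
  continuous_toFun := act_cont S π hπ s
  continuous_invFun := act_cont S π hπ s

/-- the homeomorphism of a word -/
def evX (hπ : Continuous π) (hS : ∀ y, π (S y) = T (π y)) (w : List Lt) : Y ≃ₜ Y :=
  (w.map (gX S π hπ hS)).prod

theorem evX_cons (hπ : Continuous π) (hS : ∀ y, π (S y) = T (π y)) (s : Lt) (w : List Lt) (y : Y) :
    evX S π hπ hS (s :: w) y = act S π s (evX S π hπ hS w y) := by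
  simp only [evX, List.map_cons, List.prod_cons]
  rfl

end ext

def mvw (w : List Lt) (q : ℕ) : ℕ := w.foldr mv q

theorem mvw_pos (w : List Lt) (q : ℕ) : q ≤ mvw w q + w.length ∧ mvw w q ≤ q + w.length := by
  induction w with
  | nil => simp [mvw]
  | cons s w ih =>
    have h := mv_pos s (mvw w q)
    have e : mvw (s :: w) q = mv s (mvw w q) := rfl
    rw [e]
    simp only [List.length_cons]
    omega

theorem evX_shf {Y : Type} [TopologicalSpace Y] (S : Y ≃ₜ Y) (π : Y → MS)
    (hπ : Continuous π) (hS : ∀ y, π (S y) = T (π y)) (w : List Lt) (y : Y) (q : ℕ) (L : ℕ)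
    (hL : ∀ n : ℤ, |n| ≤ L → (π y).1 n = tm (q + n).toNat) (hw : w.length + 2 ≤ L)
    (hq : w.length + 1 ≤ q) : evX S π hπ hS w y = (S ^ ((mvw w q : ℤ) - q)) y := by
  induction w with
  | nil =>
    have e : ((mvw [] q : ℕ) : ℤ) - q = 0 := by simp [mvw]
    rw [e, zpow_zero]
    rfl
  | cons s w ih =>
    simp only [List.length_cons] at hw hq
    have h1 := ih (by omega) (by omega)
    have hp := mvw_pos w q
    rw [evX_cons, h1, act, pi_zpow S π hS]
    rw [dis_shf s (π y) q L hL ((mvw w q : ℕ) - q) (by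
      have : |((mvw w q : ℕ) : ℤ) - q| ≤ w.length := by
        rw [abs_le]
        omega
      have hw' : ((w.length + 1 + 2 : ℕ) : ℤ) ≤ L := by exact_mod_cast hw
      push_cast at hw'
      linarith) (mvw w q) (by ring) (by omega)]
    rw [zpow_add_apply]
    congr 2
    have e : mvw (s :: w) q = mv s (mvw w q) := rfl
    rw [e]
    ring

theorem gam_mv (s : Lt) (n q : ℕ) (hq : 1 ≤ q) : gam n (mv s q) = gno alt s (gam n q) := by
  cases s
  · exact gam_mvA n q
  · exact gam_mvX .b n alt q hq
  · exact gam_mvX .c n alt q hq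
  · exact gam_mvX .d n alt q hq

theorem gam_mvw (w : List Lt) (n q : ℕ) (hq : w.length + 1 ≤ q) :
    gam n (mvw w q) = evo alt w (gam n q) := by
  induction w with
  | nil => rfl
  | cons s w ih =>
    simp only [List.length_cons] at hq
    have e : mvw (s :: w) q = mv s (mvw w q) := rfl
    have hp := mvw_pos w q
    rw [e, gam_mv s n _ (by omega), ih (by omega), evo_cons]
    rfl

theorem shf_ne {x : MS} (q : ℕ) (hx : ∀ n : ℕ, x.1 n = tm (q + n)) {m : ℤ} (h : shf m x = x) : m = 0 := by
  by_contra hm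
  -- a positive period
  have key : ∀ p : ℕ, 1 ≤ p → shf (p : ℤ) x = x → False := by
    intro p hp h
    apply tm_aper p hp q
    intro n hn
    have h1 := congrFun (congrArg Subtype.val h) ((n - q : ℕ) : ℤ)
    have h2 : x.1 (((n - q : ℕ) : ℤ) + (p : ℤ)) = x.1 ((n - q : ℕ) : ℤ) := h1
    have e : (((n - q : ℕ) : ℤ) + (p : ℤ)) = ((n - q + p : ℕ) : ℤ) := by push_cast; ring
    rw [e, hx, hx] at h2
    have e1 : q + (n - q + p) = n + p := by omega
    have e2 : q + (n - q) = n := by omega
    rwa [e1, e2] at h2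
  rcases lt_trichotomy m 0 with h0 | h0 | h0
  · apply key (-m).toNat (by omega)
    have e : (((-m).toNat : ℕ) : ℤ) = -m := by omega
    rw [e]
    calc shf (-m) x = shf (-m) (shf m x) := by rw [h]
      _ = x := by rw [shf_shf]; simp [shf_zero]
  · exact hm h0
  · apply key m.toNat (by omega)
    have e : ((m.toNat : ℕ) : ℤ) = m := by omega
    rw [e, h]

/-- the words trivial on the extension are the words trivial in `G_ω`, `ω = 0101...` -/
theorem evX_eq_one {Y : Type} [TopologicalSpace Y] (S : Y ≃ₜ Y) (π : Y → MS)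
    (hπ : Continuous π) (hS : ∀ y, π (S y) = T (π y)) (hsurj : Function.Surjective π)
    (w : List Lt) : evX S π hπ hS w = 1 ↔ evo alt w = 1 := by
  constructor
  · intro h
    ext1 u
    obtain ⟨q, hq, hu⟩ := gam_surj u (w.length + 10)
    obtain ⟨y, hy⟩ := hsurj (shf q ⟨x0, x0_mem⟩)
    have hxn : ∀ n : ℤ, -(q : ℤ) ≤ n → (π y).1 n = tm (q + n).toNat := by
      intro n hn
      rw [hy]
      show x0 (n + q) = _
      have e : n + (q : ℤ) = ((q + n).toNat : ℕ) := by omega
      rw [e, x0_nat]
    have h1 := evX_shf S π hπ hS w y q (w.length + 2) (by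
      intro n hn
      rw [abs_le] at hn
      push_cast at hn
      exact hxn n (by omega)) le_rfl (by omega)
    rw [h] at h1
    have h2 : shf ((mvw w q : ℕ) - q) (π y) = π y := by
      rw [← pi_zpow S π hS, ← h1]
      rfl
    have h3 := shf_ne q (fun n => by
      have := hxn n (by omega)
      rw [this]
      congr 1) h2
    have h4 : mvw w q = q := by omega
    have h5 := gam_mvw w u.length q (by omega)
    rw [h4, hu] at h5
    rw [← h5]
    rfl
  · intro h
    apply Homeomorph.ext
    intro y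
    obtain ⟨q, hq, hL⟩ := centred (π y) (w.length + 2)
    rw [evX_shf S π hπ hS w y q (w.length + 2) hL le_rfl (by omega)]
    have h1 : mvw w q = q := by
      apply gam_inj _ _ _ le_rfl
      intro n
      rw [gam_mvw w n q (by omega), h]
      rfl
    rw [h1, sub_self, zpow_zero]

end Pool.Agent.T6.H29.MO
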