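import Mathlib

/-!
The Morse subshift, topological full groups and intermediate growth: the definitions.
-/

set_option autoImplicit false

namespace Pool.Agent.T6.H29.MO

open Filter

/-- the substitution `0 ↦ 01`, `1 ↦ 10` (`false` is 0, `true` is 1) -/
def morse : Bool → List Bool
  | false => [false, true]
  | true => [true, false]

/-- its extension to words -/
def sbt (w : List Bool) : List Bool := w.flatMap morse

/-- the Morse subshift -/
def morseShift : Set (ℤ → Bool) :=
  {x | ∀ (i : ℤ) (l : ℕ), ∃ (n : ℕ) (a : Bool), 1 ≤ n ∧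
    (List.ofFn fun j : Fin l => x (i + (j : ℕ))) <:+: sbt^[n] [a]}

theorem shift_mem {x : ℤ → Bool} (hx : x ∈ morseShift) (m : ℤ) :
    (fun i => x (i + m)) ∈ morseShift := by
  intro i l
  obtain ⟨n, a, h1, h2⟩ := hx (i + m) l
  refine ⟨n, a, h1, ?_⟩
  have e : (fun j : Fin l => x (i + m + (j : ℕ))) = fun j : Fin l => x (i + (j : ℕ) + m) := by
    funext j
    congr 1
    ring
  rwa [e] at h2

/-- the Morse subshift as a space -/
abbrev MS : Type := ↥morseShift

/-- the shift by `m` -/
def shf (m : ℤ) (x : MS) : MS := ⟨fun i => x.1 (i + m), shift_mem x.2 m⟩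

theorem shf_zero (x : MS) : shf 0 x = x := by
  apply Subtype.ext
  funext i
  show x.1 (i + 0) = x.1 i
  rw [add_zero]

theorem shf_shf (m n : ℤ) (x : MS) : shf m (shf n x) = shf (m + n) x := by
  apply Subtype.ext
  funext i
  show x.1 (i + m + n) = x.1 (i + (m + n))
  rw [add_assoc]

/-- the shift -/
def T : MS ≃ₜ MS where
  toFun := shf 1
  invFun := shf (-1)
  left_inv := fun x => by rw [shf_shf]; exact shf_zero x
  right_inv := fun x => by rw [shf_shf]; exact shf_zero x
  continuous_toFun := by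
    refine Continuous.subtype_mk ?_ _
    exact continuous_pi fun i => (continuous_apply _).comp continuous_subtype_val
  continuous_invFun := by
    refine Continuous.subtype_mk ?_ _
    exact continuous_pi fun i => (continuous_apply _).comp continuous_subtype_val

/-- the products of at most `r` elements of `S` and inverses of elements of `S` -/
def wball {G : Type} [Group G] (S : Set G) (r : ℕ) : Set G :=
  {g | ∃ l : List G, l.length ≤ r ∧ (∀ s ∈ l, s ∈ S ∨ s⁻¹ ∈ S) ∧ l.prod = g}

/-- the number of elements of word length at most `r` -/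
noncomputable def growth {G : Type} [Group G] (S : Set G) (r : ℕ) : ℕ := (wball S r).ncard

/-- `H` is finitely generated and for every finite generating set the growth function is faster than
every polynomial and slower than every exponential `e ^ (c r)`, `c > 0` -/
def IntermediateGrowth {G : Type} [Group G] (H : Subgroup G) : Prop :=
  H.FG ∧ ∀ S : Set G, S.Finite → Subgroup.closure S = H →
    (∀ (d : ℕ) (C : ℝ), ∀ᶠ r : ℕ in atTop, C * (r : ℝ) ^ d < growth S r) ∧
    (∀ c : ℝ, 0 < c → ∀ᶠ r : ℕ in atTop, (growth S r : ℝ) < Real.exp (c * r))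

/-- the topological full group -/
def fullGroup {X : Type} [TopologicalSpace X] (T : X ≃ₜ X) : Subgroup (X ≃ₜ X) where
  carrier := {g | ∃ n : X → ℤ, Continuous n ∧ ∀ x, g x = (T ^ n x) x}
  one_mem' := ⟨fun _ => 0, continuous_const, fun x => by rw [zpow_zero]⟩
  mul_mem' := by
    rintro g h ⟨n, hn, hg⟩ ⟨m, hm, hh⟩
    refine ⟨fun x => n (h x) + m x, (hn.comp h.continuous).add hm, fun x => ?_⟩
    show g (h x) = _
    rw [hg, zpow_add]
    show (T ^ n (h x)) (h x) = (T ^ n (h x)) ((T ^ m x) x)
    rw [← hh]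
  inv_mem' := by
    rintro g ⟨n, hn, hg⟩
    refine ⟨fun x => - n (g⁻¹ x), (hn.comp (g⁻¹ : X ≃ₜ X).continuous).neg, fun x => ?_⟩
    have h1 : g (g⁻¹ x) = x := by
      show (g * g⁻¹) x = x
      rw [mul_inv_cancel]
      rfl
    have h2 := hg (g⁻¹ x)
    rw [h1] at h2
    rw [zpow_neg]
    have h3 : (T ^ n (g⁻¹ x))⁻¹ x = (T ^ n (g⁻¹ x))⁻¹ ((T ^ n (g⁻¹ x)) (g⁻¹ x)) := by
      rw [← h2]
    rw [h3]
    show g⁻¹ x = ((T ^ n (g⁻¹ x))⁻¹ * (T ^ n (g⁻¹ x))) (g⁻¹ x)
    rw [inv_mul_cancel]
    rfl

end Pool.Agent.T6.H29.MO
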