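import Pool.Agent.H776R2.Om.Basic

/-!
Grey code of the positions on a half line: moves across the edges of the line of given levels are the
generators of `G_ω`.
-/

set_option autoImplicit false

namespace Pool.Agent.T6.H29.MO

open Pool.Agent.Results.MP_03d093_al.SphereBall Pool.Agent.H776R2.Grig Pool.Agent.H776R2.Om

/-- first digit -/
def gd (q : ℕ) : Bool := decide (q % 4 = 0 ∨ q % 4 = 3)

/-- Grey code -/
def gam : ℕ → ℕ → List Bool
  | 0, _ => []
  | n + 1, q => gd q :: gam n (q / 2)

/-- across the edge `(2j, 2j+1)` -/
def mvA (q : ℕ) : ℕ := if q % 2 = 0 then q + 1 else q - 1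

/-- across the edge `(2j-1, 2j)` if `col (ω (v_2 j)) x` -/
def mvX (x : V) (ω : Om) (q : ℕ) : ℕ :=
  if col (ω (padicValNat 2 ((q + 1) / 2))) x then (if q % 2 = 0 then q - 1 else q + 1) else q

theorem gam_mvA (n q : ℕ) : gam n (mvA q) = aFun (gam n q) := by
  cases n with
  | zero => rfl
  | succ n =>
    have h1 : mvA q / 2 = q / 2 := by
      unfold mvA
      split_ifs <;> omega
    have h2 : gd (mvA q) = !(gd q) := by
      unfold gd mvA
      split_ifs with h
      · by_cases h0 : q % 4 = 0
        · have e1 : (q + 1) % 4 = 1 := by omega
          simp [h0, e1]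
        · have e0 : q % 4 = 2 := by omega
          have e1 : (q + 1) % 4 = 3 := by omega
          simp [e0, e1]
      · by_cases h0 : q % 4 = 1
        · have e1 : (q - 1) % 4 = 0 := by omega
          simp [h0, e1]
        · have e0 : q % 4 = 3 := by omega
          have e1 : (q - 1) % 4 = 2 := by omega
          simp [e0, e1]
    simp only [gam, h1, h2, aFun]

theorem gam_mvX (x : V) (n : ℕ) : ∀ (ω : Om) (q : ℕ), 1 ≤ q →
    gam n (mvX x ω q) = xFun x ω (gam n q) := by
  induction n with
  | zero => intro ω q _; rfl
  | succ n ih =>
    intro ω q hq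
    set j := (q + 1) / 2 with hj
    have hj1 : 1 ≤ j := by omega
    rcases Nat.even_or_odd j with hje | hjo
    · -- `j` even
      obtain ⟨i, hi⟩ := hje
      have hi1 : 1 ≤ i := by omega
      have hval : padicValNat 2 j = padicValNat 2 i + 1 := by
        rw [show j = 2 * i by omega, padicValNat.mul (by norm_num) (by omega)]
        simp [add_comm]
      have hg : gd q = true := by
        unfold gd
        have : q % 4 = 0 ∨ q % 4 = 3 := by omega
        simp [this]
      have e : gam (n + 1) q = true :: gam n (q / 2) := by simp only [gam, hg]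
      rw [e]
      have e2 : xFun x ω (true :: gam n (q / 2)) = true :: xFun x (sh ω) (gam n (q / 2)) := by
        simp only [xFun]
      rw [e2, ← ih (sh ω) (q / 2) (by omega)]
      have hm : mvX x (sh ω) (q / 2) = mvX x ω q / 2 := by
        unfold mvX
        have h1 : (q / 2 + 1) / 2 = i := by omega
        rw [h1, ← hj, hval]
        have h2 : sh ω (padicValNat 2 i) = ω (padicValNat 2 i + 1) := rfl
        rw [h2]
        split_ifs <;> omega
      have hg2 : gd (mvX x ω q) = true := by
        unfold gd mvX
        rw [← hj]
        have : ∀ m : ℕ, (m = q ∨ (q % 2 = 0 ∧ m = q - 1) ∨ (q % 2 ≠ 0 ∧ m = q + 1)) →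
            (m % 4 = 0 ∨ m % 4 = 3) := by
          intro m hm
          omega
        rw [decide_eq_true_eq]
        apply this
        split_ifs with h3 h4
        · exact Or.inr (Or.inl ⟨h4, rfl⟩)
        · exact Or.inr (Or.inr ⟨h4, rfl⟩)
        · exact Or.inl rfl
      simp only [gam, hg2, hm]
    · -- `j` odd
      obtain ⟨i, hi⟩ := hjo
      have hval : padicValNat 2 j = 0 := by
        apply padicValNat.eq_zero_of_not_dvd
        omega
      have hg : gd q = false := by
        unfold gd
        have : ¬ (q % 4 = 0 ∨ q % 4 = 3) := by omega
        simp [this]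
      have e : gam (n + 1) q = false :: gam n (q / 2) := by simp only [gam, hg]
      rw [e]
      have e2 : xFun x ω (false :: gam n (q / 2)) =
          false :: (if col (ω 0) x then aFun (gam n (q / 2)) else gam n (q / 2)) := by
        simp only [xFun]
      rw [e2]
      have hmv : mvX x ω q = if col (ω 0) x then (if q % 2 = 0 then q - 1 else q + 1) else q := by
        unfold mvX
        rw [← hj, hval]
      rw [hmv]
      by_cases hc : col (ω 0) x = true
      · rw [if_pos hc, if_pos hc, ← gam_mvA]
        have h1 : (if q % 2 = 0 then q - 1 else q + 1) / 2 = mvA (q / 2) := by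
          unfold mvA
          split_ifs <;> omega
        have h2 : gd (if q % 2 = 0 then q - 1 else q + 1) = false := by
          unfold gd
          rw [decide_eq_false_iff_not]
          split_ifs <;> omega
        simp only [gam, h1, h2]
      · rw [if_neg hc, if_neg hc]
        simp only [gam, hg]

theorem gam_inj (N : ℕ) : ∀ q q' : ℕ, q + q' ≤ N → (∀ n, gam n q = gam n q') → q = q' := by
  induction N using Nat.strong_induction_on with
  | _ N ih =>
    intro q q' hN h
    by_cases h0 : q + q' = 0
    · omega
    · have h1 : gd q = gd q' := by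
        have := h 1
        simp only [gam, List.cons.injEq, and_true] at this
        exact this
      have h2 : ∀ n, gam n (q / 2) = gam n (q' / 2) := by
        intro n
        have := h (n + 1)
        simp only [gam, List.cons.injEq] at this
        exact this.2
      have h3 : q / 2 = q' / 2 := ih (q / 2 + q' / 2) (by omega) _ _ le_rfl h2
      unfold gd at h1
      rw [decide_eq_decide] at h1
      omega

theorem gam_surj (u : List Bool) : ∀ M : ℕ, ∃ q : ℕ, M ≤ q ∧ gam u.length q = u := by
  induction u with
  | nil => intro M; exact ⟨M, le_rfl, rfl⟩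
  | cons x u ih =>
    intro M
    obtain ⟨q, hq, hu⟩ := ih M
    have h0 : gd (2 * q) = !(gd (2 * q + 1)) := by
      have := gam_mvA 1 (2 * q + 1)
      have e : mvA (2 * q + 1) = 2 * q := by
        unfold mvA
        rw [if_neg (by omega)]
        omega
      rw [e] at this
      simp only [gam, aFun, List.cons.injEq, and_true] at this
      exact this
    have e0 : 2 * q / 2 = q := by omega
    have e1 : (2 * q + 1) / 2 = q := by omega
    by_cases hx : gd (2 * q) = x
    · refine ⟨2 * q, by omega, ?_⟩
      simp only [List.length_cons, gam, e0, hu, hx]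
    · refine ⟨2 * q + 1, by omega, ?_⟩
      have : gd (2 * q + 1) = x := by
        rw [h0] at hx
        revert hx
        cases gd (2 * q + 1) <;> cases x <;> simp
      simp only [List.length_cons, gam, e1, hu, this]

end Pool.Agent.T6.H29.MO
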